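import Pool.Agent.MP_3fa95c_lc.H25.B

namespace Pool.Agent.Results.MP_3fa95c_lc.Complexity

open Filter

theorem result : ∀ b : ℕ, 2 ≤ b →
    Tendsto (fun n : ℕ => (Set.ncard {w : Fin n → ℕ | ∃ i : ℕ, ∀ j : Fin n,
      w j = ⌊(b : ℝ) ^ (i + j) * Real.exp 1⌋₊ % b} : ℝ) / (n : ℝ)) atTop atTop := by
  intro b hb
  refine tendsto_atTop.2 fun x => ?_
  obtain ⟨C, hC⟩ := exists_nat_ge x
  filter_upwards [H25E.complexity b hb C, eventually_gt_atTop 0] with n h1 h2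
  rw [le_div_iff₀ (by exact_mod_cast h2)]
  refine (mul_le_mul_of_nonneg_right hC (by positivity)).trans ?_
  have h3 : (C : ℝ) * n ≤ (Set.ncard {w : Fin n → ℕ | ∃ i : ℕ, ∀ j : Fin n,
      w j = H25E.dg b (i + j)} : ℝ) := by exact_mod_cast h1
  exact h3

end Pool.Agent.Results.MP_3fa95c_lc.Complexity
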