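import Pool.Agent.MP_3fa95c_lc.H46.Main

namespace Pool.Agent.Results.MP_3fa95c_lc.IterativeArray

open Pool.Agent.MP_3fa95c_lc.H46

/-- The decimal digits of `e` are written in linear time by an iterative array (a one-dimensional
cellular automaton started from a single non-quiescent cell, which is also the output cell). -/
theorem result : ∃ (N : IterArray) (c : ℕ), (∀ n, n ≤ (N.written (c * n)).length) ∧
    ∀ t i (h : i < (N.written t).length),
      ((N.written t)[i] : ℕ) = ⌊(10 : ℝ) ^ i * Real.exp 1⌋₊ % 10 :=
  e_realtime

end Pool.Agent.Results.MP_3fa95c_lc.IterativeArray
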