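import Pool.Agent.MP_3fa95c_lc.Mg.H70_Final

namespace Pool.Agent.Results.MP_3fa95c_lc.StructuredField

open Pool.Agent.MP_3fa95c_lc.H70

/-- `e` is transcendental over the field generated by all real numbers whose expansion in some
integer base is produced by a deterministic pushdown automaton, by a tag machine with dilation
factor `> 1`, has linear factor complexity, or is computed by a one-way machine with few states. -/
theorem result (S : Set ℝ) (h : ∀ ξ ∈ S, ∃ (b : ℕ) (a : ℕ → ℤ), 2 ≤ b ∧
    ((∃ (A : DPDA) (k : ℕ), 2 ≤ k ∧ ∀ n, a n = A.digit k n) ∨ TagGen a ∨ LinGen a ∨ MemGen a) ∧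
    ξ = ∑' n, (a n : ℝ) / (b : ℝ) ^ n) :
    Transcendental (IntermediateField.adjoin ℚ S) (Real.exp 1) :=
  main S h

end Pool.Agent.Results.MP_3fa95c_lc.StructuredField
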